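import Mathlib
import Pool.Agent.Q288.MinMax.LargeLaw

/-! # The critical point of the noisy min-max game with random boundary values -/

set_option autoImplicit false

namespace Pool.Agent.Results.MP_023911_pr.Threshold

open MeasureTheory ProbabilityTheory Filter Topology Set Q288.MinMax Q288.MinMax.Large

universe u

/-- For all large `d` there is a critical point `pc`: the root value `V_n` of the game with
boundary values `0` (probability `p`) and `2` (probability `1 - p`) converges in distribution to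
`F_∞ = μ` for every `p > pc` (in particular for `p = 1`), and to `F'_∞`, the law of `j + 2` under
`μ`, for every `p < pc` (in particular for `p = 0`). -/
theorem result : ∃ d₀ : ℕ, ∀ d ≥ d₀, ∀ [NeZero d], ∃ (pc : ℝ) (μ : ProbabilityMeasure ℤ),
    0 < pc ∧ pc < 1 ∧
    (∀ p, 0 ≤ p → p ≤ 1 →
      Model d p (claw d (bdry p)) (fun v ω => sgn (ω v).1) (fun v ω => (ω v).2)) ∧
    ∀ (p : ℝ) (Ω : Type u) [MeasurableSpace Ω] (P : Measure Ω) [IsProbabilityMeasure P]
      (X B : List (Fin d) → Ω → ℤ), Model d p P X B →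
      (pc < p → TendstoInDistribution (fun n ω => V n (fun v => X v ω) (fun v => B v ω)) atTop
        (fun j : ℤ => j) (fun _ => P) (μ : Measure ℤ)) ∧
      (p < pc → TendstoInDistribution (fun n ω => V n (fun v => X v ω) (fun v => B v ω)) atTop
        (fun j : ℤ => j + 2) (fun _ => P) (μ : Measure ℤ)) := by
  obtain ⟨d₀, hd₀⟩ := eventually_atTop.1 eventually_big
  refine ⟨d₀, fun d hd _ => ?_⟩
  have hb := hd₀ d hd
  obtain ⟨pc, c0, c1, h0, h1⟩ := exists_threshold hb
  obtain ⟨μ, hμ⟩ := exists_law_two (Linf_cdf hb)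
  refine ⟨pc, μ, c0, c1, fun p p0 p1 => canonical d p0 p1, ?_⟩
  intro p Ω _ P _ X B hM
  obtain ⟨p0, p1⟩ := hM.range
  refine ⟨fun hp => hM.tendsto μ _ (Linf d) (fun j => ?_) (h1 p hp p1),
    fun hp => hM.tendsto μ _ (fun k => Linf d (k - 1)) (fun j => ?_) (h0 p p0 hp)⟩
  · exact hμ j
  · have e : (fun j : ℤ => j + 2) ⁻¹' Iic j = Iic (j - 2) := by
      ext i
      simp only [mem_preimage, mem_Iic]
      omega
    rw [e, hμ]
    congr 1
    omega

end Pool.Agent.Results.MP_023911_pr.Threshold
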